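import Pool.Agent.H.MP_ce3b04_lc.Defs

set_option autoImplicit false

namespace Pool.Agent.H.MP_ce3b04_lc

open Relation

theorem ap_eq (f n : ℕ) (ts : Fin n → Tm) : Tm.ap f n ts = .app f (List.ofFn ts) := by
  simp only [Tm.app, List.length_ofFn, Tm.ap.injEq, true_and]
  exact (Fin.heq_fun_iff (by simp)).2 fun i => by simp

@[simp, grind =] theorem app_inj {f g : ℕ} {l m : List Tm} : Tm.app f l = .app g m ↔ f = g ∧ l = m :=
  ⟨fun h => by
    simp only [Tm.app, Tm.ap.injEq] at h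
    exact ⟨h.1, List.ext_get h.2.1 fun i a b => (Fin.heq_fun_iff h.2.1).1 h.2.2 ⟨i, a⟩⟩, fun h => h.1 ▸ h.2 ▸ rfl⟩
@[simp, grind =] theorem app_var {f x : ℕ} {l : List Tm} : (Tm.app f l = .var x) = False := by simp [Tm.app]
@[simp, grind =] theorem var_app {f x : ℕ} {l : List Tm} : (.var x = Tm.app f l) = False := by simp [Tm.app]
@[simp, grind =] theorem app_hole {f : ℕ} {l : List Tm} : (Tm.app f l = .hole) = False := by simp [Tm.app]
@[simp, grind =] theorem hole_app {f : ℕ} {l : List Tm} : (.hole = Tm.app f l) = False := by simp [Tm.app]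

theorem subst_app (σ : ℕ → Tm) (f : ℕ) (l : List Tm) : (Tm.app f l).subst σ = .app f (l.map (Tm.subst σ)) := by
  rw [Tm.app, Tm.subst, ap_eq]
  exact congrArg _ (List.ofFn_getElem_eq_map ..)

theorem vars_app (f : ℕ) (l : List Tm) : (Tm.app f l).vars = l.flatMap Tm.vars := by
  rw [Tm.app, Tm.vars]
  exact congrArg _ (List.ofFn_getElem_eq_map ..)

theorem Tm.ind {P : Tm → Prop} (h1 : ∀ x, P (.var x)) (h2 : P .hole)
    (h3 : ∀ f ts, (∀ t ∈ ts, P t) → P (.app f ts)) (t : Tm) : P t := by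
  induction t with
  | ap f n ts ih => exact ap_eq .. ▸ h3 _ _ (by simpa [List.mem_ofFn] using ih)
  | _ => simp [*]

/-- `t` reduces to an instance of the pattern -/
inductive Cp (R : List (Tm × Tm)) : Tm → Tm → Prop
  | var (x t) : Cp R (.var x) t
  | app (f ps ts) : ps.length = ts.length → (∀ p ∈ ps.zip ts, Cp R p.1 p.2) → Cp R (.app f ps) (.app f ts)
  | melt (π f ps ts u) : (.app f ps, u) ∈ R → ps.length = ts.length → (∀ p ∈ ps.zip ts, Cp R p.1 p.2) →
      Cp R π (.app f ts)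

/-- holes can be erased -/
inductive Er (R : List (Tm × Tm)) : Tm → Prop
  | var (x) : Er R (.var x)
  | melt (t) : Cp R .hole t → Er R t
  | app (f ts) : (∀ t ∈ ts, Er R t) → Er R (.app f ts)

variable {F : List ℕ} {R : List (Tm × Tm)} {d u t s π : Tm} {f : ℕ} {ps ts : List Tm}

theorem f2 {r : Tm → Tm → Prop} : (ps.length = ts.length ∧ ∀ p ∈ ps.zip ts, r p.1 p.2) ↔ List.Forall₂ r ps ts := by
  simp [List.forall₂_iff_zip]

theorem melt_iff : Cp R .hole t ↔ ∃ f ps ts u, t = .app f ts ∧ (.app f ps, u) ∈ R ∧ List.Forall₂ (Cp R) ps ts :=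
  ⟨fun h => by cases h with | melt _ f ps ts u h1 h2 h3 => exact ⟨f, ps, ts, u, rfl, h1, f2.1 ⟨h2, h3⟩⟩,
    fun ⟨_, _, _, _, e, h1, h2⟩ => e ▸ .melt _ _ _ _ _ h1 (f2.2 h2).1 (f2.2 h2).2⟩

theorem Cp.of_melt (h : Cp R .hole t) : Cp R π t := by
  cases h with | melt _ f ps ts u h1 h2 h3 => exact .melt _ _ _ _ _ h1 h2 h3

theorem cp_app : Cp R (.app f ps) t ↔ Cp R .hole t ∨ ∃ ts, t = .app f ts ∧ List.Forall₂ (Cp R) ps ts := by
  refine ⟨fun h => ?_, fun h => h.elim .of_melt fun ⟨_, e, h⟩ => e ▸ .app _ _ _ (f2.2 h).1 (f2.2 h).2⟩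
  generalize e : Tm.app f ps = w at h
  cases h with
  | var => simp at e
  | app _ _ ts h1 h2 => obtain ⟨rfl, rfl⟩ := app_inj.1 e; exact .inr ⟨ts, rfl, f2.1 ⟨h1, h2⟩⟩
  | melt _ f ps ts u h1 h2 h3 => exact .inl (.melt _ _ _ _ _ h1 h2 h3)

theorem wf_app {h : Prop} : WF F h (.app f ts) ↔ F[f]? = some ts.length ∧ ∀ t ∈ ts, WF F h t := by
  refine ⟨fun h => ?_, fun h => .app _ _ h.1 h.2⟩
  generalize e : Tm.app f ts = w at h
  cases h <;> simp_all

theorem cp_subst (σ : ℕ → Tm) (h : WF F False π) : Cp R π (π.subst σ) := by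
  induction h with
  | var => exact .var ..
  | hole h => exact h.elim
  | app f ts _ _ ih => exact cp_app.2 (.inr ⟨_, by rw [subst_app], by simpa using ih⟩)

theorem f2_repl {r : Tm → Tm → Prop} (h : ∀ π, r π s → r π t) {a b : List Tm}
    (h' : List.Forall₂ r ps (a ++ s :: b)) : List.Forall₂ r ps (a ++ t :: b) := by
  induction a generalizing ps with
  | nil => cases h' with | cons h1 h2 => exact .cons (h _ h1) h2
  | cons x a ih => cases h' with | cons h1 h2 => exact .cons h1 (ih h2)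

theorem Cp.back (h : Repl d u t s) (hd : Cp R .hole d) : ∀ {π}, Cp R π s → Cp R π t := by
  induction h with
  | root => exact fun _ => hd.of_melt
  | arg f a b _ ih =>
    intro π h
    generalize e : Tm.app f _ = w at h
    cases h with
    | var => exact .var ..
    | app g ps ts h1 h2 =>
      obtain ⟨rfl, rfl⟩ := app_inj.1 e
      exact cp_app.2 (.inr ⟨_, rfl, f2_repl (fun _ => ih) (f2.1 ⟨h1, h2⟩)⟩)
    | melt _ g ps ts u h1 h2 h3 =>
      obtain ⟨rfl, rfl⟩ := app_inj.1 e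
      exact .of_melt (melt_iff.2 ⟨_, _, _, _, rfl, h1, f2_repl (fun _ => ih) (f2.1 ⟨h2, h3⟩)⟩)

theorem er_app : Er R (.app f ts) ↔ Cp R .hole (.app f ts) ∨ ∀ t ∈ ts, Er R t :=
  ⟨fun h => by
    generalize e : Tm.app f ts = w at h
    cases h <;> simp_all, fun h => h.elim (.melt _) (.app _ _)⟩

theorem Er.back (h : Repl d u t s) (hd : Cp R .hole d) : Er R s → Er R t := by
  induction h with
  | root => exact fun _ => .melt _ hd
  | arg f a b h ih =>
    simp only [er_app]
    exact Or.imp (Cp.back (.arg _ _ _ h) hd) (by grind)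

theorem Repl.mem (h : t ∈ ts) (h' : Repl d u t s) : ∃ c, Repl d u (.app f ts) c := by
  obtain ⟨a, b, rfl⟩ := List.append_of_mem h
  exact ⟨_, .arg f a b h'⟩

theorem sub_app : Sub d (.app f ts) ↔ d = .app f ts ∨ ∃ t ∈ ts, Sub d t := by
  refine ⟨fun ⟨c, h⟩ => ?_, fun h => h.elim (fun h => h ▸ ⟨_, .root⟩) fun ⟨t, h, c, h'⟩ => h'.mem h⟩
  generalize e : Tm.app f ts = w at h
  cases h with
  | root => exact .inl rfl
  | arg g a b h => obtain ⟨rfl, rfl⟩ := app_inj.1 e; exact .inr ⟨_, by simp, _, h⟩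

theorem sub_var {x : ℕ} : Sub d (.var x) ↔ d = .var x :=
  ⟨fun ⟨c, h⟩ => by
    generalize e : Tm.var x = w at h
    cases h <;> simp_all, fun h => h ▸ ⟨_, .root⟩⟩

theorem er_of (h : ¬Sub .hole t) : Er R t := by
  induction t using Tm.ind with
  | h1 => exact .var _
  | h2 => exact (h ⟨_, .root⟩).elim
  | h3 f ts ih => exact .app _ _ fun t ht => ih t ht fun h' => h (sub_app.2 (.inr ⟨t, ht, h'⟩))

def LL (F : List ℕ) (R : List (Tm × Tm)) : Prop := ∀ r ∈ R, WF F False r.1 ∧ (∀ x, r.1 ≠ .var x) ∧ r.1.vars.Nodup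

theorem Redex.melt (hR : LL F R) (h : Redex R t) : Cp R .hole t := by
  obtain ⟨⟨l, r⟩, h1, σ, rfl⟩ := h
  obtain ⟨h2, h3, -⟩ := hR _ h1
  dsimp only at *
  cases h2 with
  | var x => exact (h3 x rfl).elim
  | hole h => exact h.elim
  | app f ts _ h => exact melt_iff.2 ⟨f, ts, _, r, by rw [subst_app], h1, by simpa using fun t ht => cp_subst σ (h t ht)⟩

theorem subst_congr {σ τ : ℕ → Tm} (h : ∀ x ∈ t.vars, σ x = τ x) : t.subst σ = t.subst τ := by
  induction t using Tm.ind with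
  | h1 x => simpa [Tm.subst, subst_app, Tm.vars, vars_app] using h
  | h2 => simp [Tm.subst, subst_app]
  | h3 f ts ih =>
    simp only [Tm.subst, subst_app, Tm.vars, vars_app, List.mem_flatMap, app_inj, List.map_inj_left, true_and] at *
    grind

theorem inst_app (h : (Tm.app f ps).vars.Nodup) (h' : List.Forall₂ (fun p t => ∃ σ, t = p.subst σ) ps ts) :
    ∃ σ, Tm.app f ts = (Tm.app f ps).subst σ := by
  simp only [Tm.vars, vars_app, Tm.subst, subst_app, app_inj, true_and] at *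
  induction h' with
  | nil => exact ⟨.var, rfl⟩
  | @cons p t ps ts h1 _ ih =>
    simp only [List.flatMap_cons, List.nodup_append] at h
    obtain ⟨σ, rfl⟩ := h1
    obtain ⟨τ, rfl⟩ := ih h.2.1
    refine ⟨fun x => if x ∈ p.vars then σ x else τ x, ?_⟩
    rw [List.map_cons, List.cons.injEq, List.map_inj_left]
    refine ⟨subst_congr (by simp +contextual), fun q hq => subst_congr fun x hx => (if_neg fun h1 => ?_).symm⟩
    exact h.2.2 x h1 x (List.mem_flatMap.2 ⟨q, hq, hx⟩) rfl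

theorem subst_var (t : Tm) : t.subst .var = t := by
  induction t using Tm.ind with
  | h3 f ts ih => rw [subst_app, List.map_congr_left ih, List.map_id']
  | _ => simp [Tm.subst, subst_app]

theorem WF.mono {h : Prop} (w : WF F False t) : WF F h t := by
  induction w with
  | var => exact .var _
  | hole h => exact h.elim
  | app f ts h _ ih => exact .app _ _ h ih

theorem steps_app {ss : List Tm} (h : List.Forall₂ (ReflTransGen (Step F R)) ts ss) (a : List Tm) :
    ReflTransGen (Step F R) (.app f (a ++ ts)) (.app f (a ++ ss)) := by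
  induction h generalizing a with
  | nil => rfl
  | @cons t s ts ss h _ ih =>
    refine .trans ?_ (by simpa using ih (a ++ [s]))
    induction h with
    | refl => rfl
    | tail _ h ih =>
      obtain ⟨d, u, h1, h2, h3⟩ := h
      exact ih.tail ⟨d, u, h1, h2, .arg _ _ _ h3⟩

theorem f2_ex {r : Tm → Tm → Prop} {q : Tm → Tm → Prop} (h : List.Forall₂ (fun p t => ∃ s, r t s ∧ q p s) ps ts) :
    ∃ ss, List.Forall₂ r ts ss ∧ List.Forall₂ q ps ss := by
  induction h with
  | nil => exact ⟨[], .nil, .nil⟩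
  | cons h _ ih =>
    obtain ⟨s, h1, h2⟩ := h
    obtain ⟨ss, h3, h4⟩ := ih
    exact ⟨s :: ss, .cons h1 h3, .cons h2 h4⟩

theorem Cp.red (hR : LL F R) (h : Cp R π t) : (π = .hole → ∀ u, WF F True u → ReflTransGen (Step F R) t u) ∧
    (WF F False π → π.vars.Nodup → ∃ s, ReflTransGen (Step F R) t s ∧ ∃ σ, s = π.subst σ) := by
  have key : ∀ f ps ts, ps.length = ts.length → (∀ p ∈ ps.zip ts, WF F False p.1 → p.1.vars.Nodup →
      ∃ s, ReflTransGen (Step F R) p.2 s ∧ ∃ σ, s = p.1.subst σ) → WF F False (.app f ps) →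
      (Tm.app f ps).vars.Nodup → ∃ s, ReflTransGen (Step F R) (.app f ts) s ∧ ∃ σ, s = (Tm.app f ps).subst σ := by
    intro f ps ts h1 h2 h3 h4
    replace h3 := (wf_app.1 h3).2
    obtain ⟨ss, a1, a2⟩ := f2_ex (r := ReflTransGen (Step F R)) (q := fun p s => ∃ σ, s = p.subst σ) (f2.1 ⟨h1, fun p hp => h2 p hp (h3 _ (List.of_mem_zip hp).1) (by
      rw [vars_app, List.nodup_flatMap] at h4
      exact h4.1 _ (List.of_mem_zip hp).1)⟩)
    exact ⟨_, steps_app a1 [], inst_app h4 a2⟩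
  induction h with
  | var x t => exact ⟨by simp, fun _ _ => ⟨t, .refl, fun _ => t, by simp [Tm.subst, subst_app]⟩⟩
  | app f ps ts h1 _ ih => exact ⟨by simp, key f ps ts h1 fun p hp => (ih p hp).2⟩
  | melt π f ps ts u h1 h2 _ ih =>
    obtain ⟨s, a1, a2⟩ := key f ps ts h2 (fun p hp => (ih p hp).2) (hR _ h1).1 (hR _ h1).2.2
    have := fun v hv => a1.tail (show Step F R s v from ⟨s, v, ⟨_, h1, a2⟩, hv, .root⟩)
    exact ⟨fun _ => this, fun h _ => ⟨π, this _ h.mono, _, (subst_var π).symm⟩⟩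

theorem nf_var (hR : LL F R) (x : ℕ) : NF R (.var x) := fun d h1 h2 => by
  simpa [sub_var.1 h1, melt_iff] using h2.melt hR

theorem needed_iff (hR : LL F R) : Needed F R t ↔ ¬Er R t := by
  refine ⟨fun h h1 => ?_, fun h s h1 _ => by_contra fun h2 => h ?_⟩
  · suffices ∃ s, ReflTransGen (Step F R) t s ∧ NF R s ∧ ¬Sub .hole s from
      let ⟨s, a, b, c⟩ := this; c (h s a b)
    clear h
    induction h1 with
    | var x => exact ⟨_, .refl, nf_var hR x, by simp [sub_var]⟩
    | melt t h => exact ⟨_, (h.red hR).1 rfl _ (.var 0), nf_var hR 0, by simp [sub_var]⟩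
    | app f ts _ ih =>
      obtain ⟨ss, a1, a2⟩ := f2_ex (ps := ts) (q := fun _ s => NF R s ∧ ¬Sub .hole s) (List.forall₂_same.2 ih)
      have a3 : ∀ s ∈ ss, NF R s ∧ ¬Sub .hole s := by
        clear a1 ih
        induction a2 <;> simp_all
      by_cases e : Redex R (.app f ss)
      · exact ⟨_, (steps_app a1 []).tail ⟨_, _, e, .var 0, .root⟩, nf_var hR 0, by simp [sub_var]⟩
      · exact ⟨_, steps_app a1 [], fun d h => by
          rcases sub_app.1 h with rfl | ⟨s, h1, h2⟩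
          exacts [e, (a3 s h1).1 d h2], by simpa [sub_app] using fun s hs => (a3 s hs).2⟩
  · clear h
    induction h1 using ReflTransGen.head_induction_on with
    | refl => exact er_of h2
    | head h _ ih =>
      obtain ⟨d, u, a1, -, a2⟩ := h
      exact Er.back a2 (a1.melt hR) ih

end Pool.Agent.H.MP_ce3b04_lc
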