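import Pool.Agent.H.MP_ce3b04_lc.A
import Pool.Agent.Lib.helper4.CXExpG

set_option autoImplicit false
set_option linter.unusedSectionVars false

namespace Pool.Agent.H.MP_ce3b04_lc

open Pool.Agent.Lib.CX Function

variable {K : Type} [DecidableEq K] [Inhabited K]

abbrev Ix (K : Type) := ℕ × K × Q8
abbrev Desc (K : Type) := ℕ × Act K × Q8 × Act K × Ix K

set_option synthInstance.maxSize 1000 in
instance : DecidableEq (Act K) := fun _ _ => instDecidableEqProd _ _
instance : DecidableEq (Ix K) := fun _ _ => instDecidableEqProd _ _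
set_option synthInstance.maxSize 1000 in
instance : DecidableEq (Desc K) := fun _ _ => instDecidableEqProd _ _

abbrev q0 : Q8 := ((false, false), false)
abbrev c (n : ℕ) : Tm := .app n []
abbrev iA : Ix K := (0, default, q0)
abbrev iD : Ix K := (1, default, q0)
abbrev iR (t : Q8) : Ix K := (4, default, t)

def bits (T : List K) : List (Ix K) := [2, 3] ×ˢ T ×ˢ q8
def ixs (T : List K) : List (Ix K) := iA :: iD :: (bits T ++ q8.map iR)
def piP (A : List (Act K)) (p : Act K × Ix K) (y : Ix K) : Tm :=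
  if y.1 = 0 then c (7 + A.idxOf p.1) else if y.1 = 1 then .var 0 else if y.1 = 4 then c 6
  else if y = p.2 then .var 1 else c 3
def pi (T : List K) (A : List (Act K)) (p : Act K × Ix K) : Tm := .app 1 ((ixs T).map (piP A p))
def grd (a : Act K) (y : Ix K) : Prop :=
  y = (2, a.1, a.2.1) ∨ y = (3, a.1, a.2.1.1, !a.2.1.2) ∨ y.1 = 3 ∧ y.2 ∈ a.2.2.1 ∧ y.2.1 ≠ a.1
def ok (w : Desc K) : Prop :=
  w.1 = 2 ∧ (q0 = w.2.2.2.2.2.2 ↔ w.2.2.2.2.1 = 2) ∨ w.1 = 3 ∨
    w.1 = 4 ∧ w.2.2.1 ∈ w.2.1.2.2.2 ∧ (w.2.2.2.2.2.1 = w.2.1.1 → (w.2.2.1 = w.2.2.2.2.2.2 ↔ w.2.2.2.2.1 = 2))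
open Classical in
noncomputable def ds (T : List K) (A : List (Act K)) : List (Desc K) :=
  (([2, 3, 4] ×ˢ A ×ˢ q8 ×ˢ A ×ˢ bits T).filter (ok ·)).dedup
open Classical in
noncomputable def ownP (T : List K) (A : List (Act K)) (w : Desc K) (y : Ix K) : Tm :=
  if y.1 = 0 then c (7 + A.idxOf w.2.1) else if y.1 = 1 then c (7 + (ds T A).idxOf w) else if y.1 = 4 then
    (if w.1 = 4 ∧ y.2.2 = w.2.2.1 then pi T A w.2.2.2 else if y.2.2 ∈ w.2.1.2.2.2 then c 5 else c 6)
  else if grd w.2.1 y ∨ w.1 = 4 ∧ y = w.2.2.2.2 ∧ y.2.1 ≠ w.2.1.1 then c 4 else c 3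
noncomputable def lhs (T : List K) (A : List (Act K)) (w : Desc K) : Tm :=
  if w.1 = 2 then .app 0 [c (7 + (ds T A).idxOf w), pi T A w.2.2.2] else .app 1 ((ixs T).map (ownP T A w))
noncomputable def rules (T : List K) (A : List (Act K)) : List (Tm × Tm) :=
  (c 2, c 3) :: (.app 0 [.var 0, c 5], c 3) :: (ds T A).map fun w => (lhs T A w, c 3)
noncomputable def sig (T : List K) (A : List (Act K)) : List ℕ :=
  2 :: (ixs T).length :: List.replicate (5 + A.length + (ds T A).length) 0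

variable {T : List K} {A : List (Act K)} {w : Desc K} {x y : Ix K} {τ : Ix K → Tm} {R : List (Tm × Tm)}
  {d u t s : Tm} {n : ℕ} {p : Act K × Ix K}

theorem mem_bits : y ∈ bits T ↔ (y.1 = 2 ∨ y.1 = 3) ∧ y.2.1 ∈ T := by
  obtain ⟨a, b, c⟩ := y
  simp only [bits, List.mem_product, mem_q8, List.mem_cons, List.not_mem_nil, or_false, and_true]

theorem mem_ixs : y ∈ ixs T ↔ y = iA ∨ y = iD ∨ y ∈ bits T ∨ y = iR y.2.2 := by
  simp only [ixs, List.mem_cons, List.mem_append, List.mem_map, mem_q8, true_and]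
  grind

theorem mem_ds : w ∈ ds T A ↔ w.2.1 ∈ A ∧ w.2.2.2.1 ∈ A ∧ w.2.2.2.2 ∈ bits T ∧ ok w := by
  obtain ⟨a, b, c, d, e⟩ := w
  simp only [ds, List.mem_dedup, List.mem_filter, List.mem_product, mem_q8, ok]
  grind

theorem ixs_nodup (h : T.Nodup) : (ixs T).Nodup := by
  have h1 : (bits T).Nodup := .product (by simp) (h.product (by decide))
  have h2 : (q8.map (iR (K := K))).Nodup := .map (fun _ _ => by simp) (by decide)
  simp only [ixs, List.nodup_cons, List.nodup_append, List.mem_cons, List.mem_append, mem_bits, List.mem_map, h1, h2]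
  grind

theorem ex_map {I : List (Ix K)} (h : I.Nodup) {ts : List Tm} (e : I.length = ts.length) : ∃ τ, ts = I.map τ :=
  ⟨fun x => ts.getD (I.idxOf x) .hole, List.ext_getElem (by simp [e]) fun i h1 h2 => by
    simp [h.idxOf_getElem, h1]⟩

theorem map_upd {a b : List (Ix K)} (h : (a ++ x :: b).Nodup) :
    (a ++ x :: b).map (update τ x s) = a.map τ ++ s :: b.map τ := by
  simp only [List.nodup_append, List.nodup_cons, List.mem_cons] at h
  simp only [List.map_append, List.map_cons, update_self]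
  congr 1
  · exact List.map_congr_left fun y hy => update_of_ne (by grind) ..
  · exact congrArg _ (List.map_congr_left fun y hy => update_of_ne (by grind) ..)

theorem repl_map {I : List (Ix K)} (h : I.Nodup) : Repl d u (.app n (I.map τ)) t ↔
    d = .app n (I.map τ) ∧ t = u ∨ ∃ x ∈ I, ∃ s, Repl d u (τ x) s ∧ t = .app n (I.map (update τ x s)) := by
  constructor
  · intro h'
    generalize e : Tm.app n _ = v at h'
    cases h' with
    | root => exact .inl ⟨rfl, rfl⟩
    | arg f a b h' =>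
      obtain ⟨rfl, e1⟩ := app_inj.1 e
      obtain ⟨a, _, rfl, rfl, e2⟩ := List.map_eq_append_iff.1 e1
      obtain ⟨x, b, rfl, rfl, rfl⟩ := List.map_eq_cons_iff.1 e2
      exact .inr ⟨x, by simp, _, h', by rw [map_upd h]⟩
  · rintro (⟨rfl, rfl⟩ | ⟨x, hx, s, h', rfl⟩)
    · exact .root
    · obtain ⟨a, b, rfl⟩ := List.append_of_mem hx
      rw [map_upd h]
      simpa using Repl.arg n (a.map τ) (b.map τ) h'

theorem repl_two {a b : Tm} : Repl d u (.app n [a, b]) t ↔ d = .app n [a, b] ∧ t = u ∨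
    (∃ s, Repl d u a s ∧ t = .app n [s, b]) ∨ ∃ s, Repl d u b s ∧ t = .app n [a, s] := by
  constructor
  · intro h'
    generalize e : Tm.app n _ = v at h'
    cases h' with
    | root => exact .inl ⟨rfl, rfl⟩
    | arg f l b h' => rcases l with _ | ⟨_, _ | ⟨_, l⟩⟩ <;> simp at e <;> grind
  · rintro (⟨rfl, rfl⟩ | ⟨s, h', rfl⟩ | ⟨s, h', rfl⟩)
    exacts [.root, .arg n [] [b] h', .arg n [a] [] h']

theorem repl_c : Repl d u (c n) t ↔ d = c n ∧ t = u := by
  simpa using repl_map (K := Unit) (I := []) (τ := fun _ => .hole) .nil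

theorem cp_c : Cp R (c n) t ↔ Cp R .hole t ∨ t = c n := by simp [cp_app]

theorem mem_rules {l r : Tm} : (l, r) ∈ rules T A ↔ r = c 3 ∧
    (l = c 2 ∨ l = .app 0 [.var 0, c 5] ∨ ∃ w ∈ ds T A, l = lhs T A w) := by
  simp only [rules, List.mem_cons, List.mem_map, Prod.mk.injEq]
  grind

theorem melt_g : Cp (rules T A) .hole (.app 1 ((ixs T).map τ)) ↔
    ∃ w ∈ ds T A, w.1 ≠ 2 ∧ ∀ y ∈ ixs T, Cp (rules T A) (ownP T A w y) (τ y) := by
  simp only [melt_iff, mem_rules, lhs]
  constructor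
  · rintro ⟨_, ps, _, _, e0, ⟨-, h | h | ⟨w, h1, h⟩⟩, h2⟩ <;> obtain ⟨rfl, rfl⟩ := app_inj.1 e0
    iterate 2 simp at h
    split_ifs at h with e
    · simp at h
    · cases (app_inj.1 h).2
      exact ⟨w, h1, e, by simpa using h2⟩
  · rintro ⟨w, h1, h2, h3⟩
    exact ⟨_, _, _, _, rfl, ⟨rfl, .inr (.inr ⟨w, h1, (if_neg h2).symm⟩)⟩, by simpa using h3⟩

theorem melt_f : Cp (rules T A) .hole (.app 0 [s, t]) ↔ Cp (rules T A) (c 5) t ∨ ∃ w ∈ ds T A, w.1 = 2 ∧
    Cp (rules T A) (c (7 + (ds T A).idxOf w)) s ∧ Cp (rules T A) (pi T A w.2.2.2) t := by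
  rw [melt_iff]
  simp only [mem_rules, lhs]
  constructor
  · rintro ⟨_, ps, _, _, e0, ⟨-, h | h | ⟨w, h1, h⟩⟩, h2⟩ <;> obtain ⟨rfl, rfl⟩ := app_inj.1 e0
    · simp at h
    · cases (app_inj.1 h).2
      exact .inl (by simpa using (List.forall₂_cons.1 h2).2)
    split_ifs at h with e
    · cases (app_inj.1 h).2
      exact .inr ⟨w, h1, e, by simpa using h2⟩
    · simp at h
  · rintro (h | ⟨w, h1, h2, h3⟩)
    · exact ⟨_, _, _, _, rfl, ⟨rfl, .inr (.inl rfl)⟩, by simp [h, Cp.var]⟩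
    · exact ⟨_, _, _, _, rfl, ⟨rfl, .inr (.inr ⟨w, h1, (if_pos h2).symm⟩)⟩, by simpa using h3⟩

theorem melt_c : Cp (rules T A) .hole (c n) ↔ n = 2 := by
  simp only [melt_iff, mem_rules, lhs]
  constructor
  · rintro ⟨_, ps, _, _, e0, ⟨-, h | h | ⟨w, h1, h⟩⟩, h2⟩ <;> obtain ⟨rfl, rfl⟩ := app_inj.1 e0
    · simp_all
    · simp_all
    · split_ifs at h <;> simp_all [ixs]
  · rintro rfl
    exact ⟨_, _, _, _, rfl, ⟨rfl, .inl rfl⟩, .nil⟩

theorem cp_pi : Cp R (pi T A p) (.app 1 ((ixs T).map τ)) ↔ Cp R .hole (.app 1 ((ixs T).map τ)) ∨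
    ∀ y ∈ ixs T, Cp R (piP A p y) (τ y) := by simp [pi, cp_app]

theorem wf_c {h : Prop} (h1 : 2 ≤ n) (h2 : n < 7 + A.length + (ds T A).length) : WF (sig T A) h (c n) := by
  obtain ⟨n, rfl⟩ : ∃ m, n = m + 2 := ⟨n - 2, by omega⟩
  exact .app _ _ (by simp [sig, List.getElem?_replicate]; omega) (by simp)

theorem wf_g {h : Prop} (H : ∀ y ∈ ixs T, WF (sig T A) h (τ y)) : WF (sig T A) h (.app 1 ((ixs T).map τ)) :=
  .app _ _ (by simp [sig]) (List.forall_mem_map.2 H)

theorem wf_pi (h : p.1 ∈ A) : WF (sig T A) False (pi T A p) := wf_g fun y _ => by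
  have := List.idxOf_lt_length_of_mem h
  unfold piP
  split_ifs <;> first | exact .var _ | exact wf_c (by omega) (by omega)

theorem vars_pi (h : T.Nodup) : (pi T A p).vars.Nodup := by
  simp only [pi, Tm.vars, vars_app, List.flatMap_map, List.nodup_flatMap]
  refine ⟨fun y _ => by unfold piP; split_ifs <;> simp [Tm.vars, vars_app],
    ((ixs_nodup h).imp_of_mem fun {x y} hx hy e => ?_)⟩
  simp only [mem_ixs, mem_bits] at hx hy
  simp only [onFun, piP]
  split_ifs <;> simp [Tm.vars, vars_app] <;> grind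

theorem ll (h : T.Nodup) : LL (sig T A) (rules T A) := by
  rintro ⟨l, r⟩ hr
  rcases (mem_rules.1 hr).2 with rfl | rfl | ⟨w, hw, rfl⟩
  · exact ⟨wf_c (by omega) (by omega), by simp, by simp [Tm.vars, vars_app]⟩
  · exact ⟨.app _ _ (by simp [sig]) (by simpa using ⟨.var _, wf_c (by omega) (by omega)⟩), by simp, by simp [Tm.vars, vars_app]⟩
  have := List.idxOf_lt_length_of_mem hw
  obtain ⟨a1, a2, -⟩ := mem_ds.1 hw
  have := List.idxOf_lt_length_of_mem a1
  simp only [lhs]
  split_ifs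
  · exact ⟨.app _ _ (by simp [sig]) (by simpa using ⟨wf_c (by omega) (by omega), wf_pi a2⟩), by simp,
      by simpa [Tm.vars, vars_app] using vars_pi h⟩
  refine ⟨wf_g fun y _ => ?_, by simp, ?_⟩
  · unfold ownP
    split_ifs <;> first | exact wf_pi a2 | exact wf_c (by omega) (by omega)
  simp only [Tm.vars, vars_app, List.flatMap_map, List.nodup_flatMap]
  refine ⟨fun y _ => by unfold ownP; split_ifs <;> first | exact vars_pi h | simp [Tm.vars, vars_app],
    ((ixs_nodup h).imp_of_mem fun {x y} hx hy e => ?_)⟩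
  simp only [mem_ixs, mem_bits] at hx hy
  simp only [onFun, ownP]
  split_ifs <;> first | simp [Tm.vars, vars_app] | grind

theorem unif_app {f g : ℕ} {ps qs : List Tm} (h : Unif (.app f ps) (.app g qs)) : f = g ∧ List.Forall₂ Unif ps qs := by
  obtain ⟨σ, τ, h⟩ := h
  simp only [Tm.subst, subst_app, app_inj, ← List.forall₂_eq_eq_eq, List.forall₂_map_left_iff,
    List.forall₂_map_right_iff] at h
  exact ⟨h.1, h.2.imp fun _ _ h => ⟨σ, τ, h⟩⟩

theorem sub_c : Sub d (c n) ↔ d = c n := by simp [sub_app]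

theorem sub_pi (h : Sub d (pi T A p)) : d = pi T A p ∨ (∃ x, d = .var x) ∨ ∃ n, 3 ≤ n ∧ d = c n := by
  refine (sub_app.1 h).imp_right fun ⟨t, h1, h2⟩ => ?_
  obtain ⟨y, -, rfl⟩ := List.mem_map.1 h1
  unfold piP at h2
  split_ifs at h2 <;> simp only [sub_c, sub_var] at h2 <;> grind

theorem two_k (hA : ∀ a ∈ A, a.1 ∈ T) (hw : w ∈ ds T A) (x : Ix K) :
    ∃ y ∈ bits T, y ≠ x ∧ ownP T A w y = c 4 := by
  have := hA _ (mem_ds.1 hw).1
  by_cases e : x = (2, w.2.1.1, w.2.1.2.1)
  · exact ⟨(3, w.2.1.1, w.2.1.2.1.1, !w.2.1.2.1.2), by simp [mem_bits, this], by simp [e], by simp [ownP, grd]⟩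
  · exact ⟨(2, w.2.1.1, w.2.1.2.1), by simp [mem_bits, this], Ne.symm e, by simp [ownP, grd]⟩

theorem orth (h : T.Nodup) (hA : ∀ a ∈ A, a.1 ∈ T) : Orth (sig T A) (rules T A) := by
  have uc : ∀ a b, Unif (c a) (c b) → a = b := fun a b h => (unif_app h).1
  refine ⟨fun r hr => ?_, ?_, ?_⟩
  · obtain ⟨a1, a2, a3⟩ := ll h r hr
    rw [(mem_rules.1 hr).1]
    exact ⟨a1, wf_c (by omega) (by omega), a2, by simp [Tm.vars, vars_app], a3⟩
  · simp only [rules, List.pairwise_cons, List.forall_mem_cons, List.forall_mem_map, List.pairwise_map, lhs]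
    refine ⟨⟨fun h => by simpa using unif_app h, fun w _ h => by split_ifs at h <;> simpa using (unif_app h).1⟩,
      fun w _ h => ?_, (List.nodup_dedup _).imp_of_mem fun {v w} hv hw e h => e ?_⟩
    · split_ifs at h
      · simpa [ixs] using unif_app (List.forall₂_cons.1 (List.forall₂_cons.1 (unif_app h).2).2).1
      · simpa using (unif_app h).1
    refine (List.idxOf_inj hv).1 (Nat.add_left_cancel (n := 7) (uc _ _ ?_))
    split_ifs at h
    · exact (List.forall₂_cons.1 (unif_app h).2).1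
    iterate 2 simpa using (unif_app h).1
    have := (unif_app h).2
    rw [List.forall₂_map_left_iff, List.forall₂_map_right_iff, List.forall₂_same] at this
    simpa [ownP] using this iD (by simp [ixs])
  · rintro ⟨l, r⟩ hr ⟨l', r'⟩ hr' f ts e t ht d hd hv hu
    have : (∃ p, d = pi T A p) ∨ ∃ n, 3 ≤ n ∧ d = c n := by
      have := fun p => sub_pi (T := T) (A := A) (p := p) (d := d)
      rcases (mem_rules.1 hr).2 with rfl | rfl | ⟨w, hw, rfl⟩
      · cases (app_inj.1 e).2; simp at ht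
      · cases (app_inj.1 e).2
        simp only [List.mem_cons, List.not_mem_nil, or_false] at ht
        rcases ht with rfl | rfl <;> simp only [sub_c, sub_var] at hd <;> grind
      simp only [lhs] at e
      split_ifs at e <;> cases (app_inj.1 e).2
      · simp only [List.mem_cons, List.not_mem_nil, or_false] at ht
        rcases ht with rfl | rfl <;> (try simp only [sub_c] at hd) <;> grind
      · obtain ⟨y, -, rfl⟩ := List.mem_map.1 ht
        unfold ownP at hd
        split_ifs at hd <;> (try simp only [sub_c] at hd) <;> grind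
    rcases (mem_rules.1 hr').2 with rfl | rfl | ⟨w, hw, rfl⟩
    iterate 2
      rcases this with ⟨p, rfl⟩ | ⟨n, h, rfl⟩ <;> have := (unif_app hu).1 <;> omega
    simp only [lhs] at hu
    split_ifs at hu <;> rcases this with ⟨p, rfl⟩ | ⟨n, h, rfl⟩
    iterate 2 have := (unif_app hu).1; omega
    · have := (unif_app hu).2
      rw [List.forall₂_map_left_iff, List.forall₂_map_right_iff, List.forall₂_same] at this
      obtain ⟨y, a1, a2, a3⟩ := two_k hA hw p.2
      have := this y (mem_ixs.2 (by simp [a1]))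
      rw [a3, show piP A p y = c 3 by simp only [piP, mem_bits] at *; grind] at this
      simpa using uc _ _ this
    · have := (unif_app hu).1; omega

end Pool.Agent.H.MP_ce3b04_lc
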