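import Pool.Agent.H.MP_ce3b04_lc.B

set_option autoImplicit false
set_option linter.unusedSectionVars false

namespace Pool.Agent.H.MP_ce3b04_lc

open Pool.Agent.Lib.CX Function

variable {K : Type} [DecidableEq K] [Inhabited K] {T : List K} {A : List (Act K)} {σ : K → Option Q8} {t : Tm}

instance : Inhabited Tm := ⟨.hole⟩

def tv (σ : K → Option Q8) (y : Ix K) : Prop := σ y.2.1 = some y.2.2 ↔ y.1 = 2

def Good (T : List K) (A : List (Act K)) (B : Act K × Ix K → Prop) (t : Tm) : Prop :=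
  ∀ d s, Redex (rules T A) d → Repl d .hole t s → Er (rules T A) s ∨ ∃ p, B p ∧ Cp (rules T A) (pi T A p) s

theorem not_redex (n : ℕ) (ts a b : List Tm) (h : a.length ≤ 1) (e : ts = a ++ c 2 :: b)
    (h1 : n = 0 → a = [] ∧ b ≠ [c 5]) (h2 : n = 1 → a ≠ []) : ¬Redex (rules T A) (.app n ts) := by
  rintro ⟨⟨l, r⟩, hr, σ, e'⟩
  rcases (mem_rules.1 hr).2 with rfl | rfl | ⟨w, hw, rfl⟩
  · simp [Tm.subst, subst_app, e] at e'
  · simp only [Tm.subst, subst_app, app_inj, e] at e'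
    simp [h1 e'.1, Tm.subst, subst_app] at e'
  · simp only [lhs] at e'
    split_ifs at e' <;> simp only [Tm.subst, subst_app, app_inj, e] at e'
    · simp [h1 e'.1, Tm.subst, subst_app] at e'
      omega
    · rcases a with _ | ⟨_, _ | _⟩
      · simp [e'.1] at h2
      · simp [ixs, ownP, Tm.subst, subst_app] at e'
        omega
      · simp at h

theorem redex_c {n : ℕ} (h : T.Nodup) (h' : Redex (rules T A) (c n)) : n = 2 := melt_c.1 (h'.melt (ll h))

open Classical in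
theorem forw (h : T.Nodup) (hA : ∀ a ∈ A, a.1 ∈ T) (hσ : AW A σ) : ∃ t, WF (sig T A) False t ∧ t ≠ c 5 ∧
    Cp (rules T A) .hole t ∧ Good T A (fun p => p.1 ∈ A ∧ p.2 ∈ bits T ∧ tv σ p.2) t := by
  induction hσ with
  | @act σ a ha a1 a2 _ ih =>
    choose! f f1 f2 f3 f4 using ih
    let τ : Ix K → Tm := fun y => if y.1 = 0 then c (7 + A.idxOf a) else if y.1 = 1 then c 2 else if y.1 = 4 then
      (if y.2.2 ∈ a.2.2.2 then f y.2.2 else c 6) else if tv σ y then c 2 else c 3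
    have e2 : Cp (rules T A) .hole (c 2) := melt_c.2 rfl
    have g1 : ∀ y, grd a y → tv σ y := by
      rintro ⟨n, k, ⟨q, b⟩⟩
      have := a2 (k, q, b)
      simp only [grd, tv]
      grind
    have hb : (2, a.1, a.2.1) ∈ bits T := by simp [mem_bits, hA a ha]
    have ow : ∀ w y, w.2.1 = a → (w.1 = 4 → w.2.2.1 ∈ a.2.2.2 ∧ (w.2.2.2.2.2.1 ≠ a.1 → tv σ w.2.2.2.2)) →
        Cp (rules T A) (ownP T A w y) (τ y) := fun w y e1 e => by
      simp only [ownP, τ, e1]
      split_ifs <;> first | exact e2.of_melt | exact cp_c.2 (.inr rfl) | exact (f3 _ (by grind)).of_melt | grind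
    have pw : ∀ β y, Cp (rules T A) (piP A (a, β) y) (τ y) := fun β y => by
      simp only [piP, τ]
      split_ifs <;> first | exact e2.of_melt | exact cp_c.2 (.inr rfl) | exact (f3 _ ‹_›).of_melt | exact .var ..
    refine ⟨.app 1 ((ixs T).map τ), wf_g fun y _ => ?_, by simp,
      melt_g.2 ⟨(3, a, q0, a, 2, a.1, a.2.1), by simp [mem_ds, ha, hb, ok], by simp,
        fun y _ => ow _ y rfl (by simp)⟩, fun d s hd hs => ?_⟩
    · have := List.idxOf_lt_length_of_mem ha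
      simp only [τ]
      split_ifs <;> first | exact f1 _ ‹_› | exact wf_c (by omega) (by omega)
    rcases (repl_map (ixs_nodup h)).1 hs with ⟨rfl, -⟩ | ⟨x, hx, s, h1, rfl⟩
    · exact (not_redex 1 _ [τ iA] _ (by simp) rfl (by simp) (by simp) hd).elim
    have up : ∀ P : Ix K → Tm, (∀ y, Cp (rules T A) (P y) (τ y)) → Cp (rules T A) (P x) s →
        ∀ y ∈ ixs T, Cp (rules T A) (P y) (update τ x s y) := fun P h1 h2 y _ => by
      rw [update_apply]; split_ifs with e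
      exacts [e ▸ h2, h1 y]
    have rc : ∀ n, τ x = c n → n = 2 := fun n e => redex_c h ((repl_c.1 (e ▸ h1)).1 ▸ hd)
    by_cases e : x.1 = 4 ∧ x.2.2 ∈ a.2.2.2
    · left
      rcases f4 _ e.2 d s hd (by simpa [τ, e] using h1) with h2 | ⟨p, ⟨b1, b2, b3⟩, h2⟩
      · refine .app _ _ (List.forall_mem_map.2 fun y _ => ?_)
        rw [update_apply]
        split_ifs
        · exact h2
        · simp only [τ]
          split_ifs <;> first | exact .melt _ (f3 _ ‹_›) | exact .app _ _ (by simp)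
      · refine .melt _ (melt_g.2 ⟨(4, a, x.2.2, p), ?_, by simp, up _ (fun y => ow _ y rfl ?_) (by
          simpa [ownP, e] using h2)⟩)
        all_goals simp only [mem_ds, ok, tv, update_apply] at *; grind
    · right
      by_cases e1 : x.1 = 1
      · exact ⟨(a, 2, a.1, a.2.1), ⟨ha, hb, by simp [tv, a1]⟩, cp_pi.2 (.inr (up _ (pw _) (by simp [piP, e1, Cp.var])))⟩
      have : x ∈ bits T ∧ tv σ x := by
        simp only [τ, mem_ixs, mem_bits] at rc hx ⊢
        split_ifs at rc <;> first | (have := rc _ rfl; grind) | grind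
      exact ⟨(a, x), ⟨ha, this⟩, cp_pi.2 (.inr (up _ (pw _) (by
        have := mem_bits.1 this.1
        simp only [piP]
        split_ifs <;> first | exact .var .. | grind)))⟩

theorem not_ss (h : T.Nodup) (hA : ∀ a ∈ A, a.1 ∈ T) (H : GA (T, A)) : ¬SS (sig T A) (rules T A) := fun hs => by
  obtain ⟨t, a1, a2, a3, a4⟩ := forw h hA H
  have e2 : Redex (rules T A) (c 2) := ⟨(c 2, c 3), List.mem_cons_self, .var, by simp [Tm.subst, subst_app]⟩
  obtain ⟨d, s, b1, b2, b3⟩ := hs (.app 0 [c 2, t])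
    (.app _ _ rfl (List.forall_mem_cons.2 ⟨wf_c (by omega) (by omega), by simpa⟩))
    fun h => h (c 2) (sub_app.2 (.inr ⟨_, by simp, _, .root⟩)) e2
  refine (needed_iff (ll h)).1 b3 ?_
  rcases repl_two.1 b2 with ⟨rfl, -⟩ | ⟨s, h1, rfl⟩ | ⟨s, h1, rfl⟩
  · exact (not_redex 0 _ [] _ (by simp) rfl (by simpa) (by simp) b1).elim
  · exact .melt _ (melt_f.2 (.inl a3.of_melt))
  rcases a4 d s b1 h1 with h2 | ⟨p, ⟨c1, c2, c3⟩, h2⟩
  · exact .app _ _ (by simpa using ⟨.app _ _ (by simp), h2⟩)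
  · refine .melt _ (melt_f.2 (.inr ⟨(2, p.1, q0, p), ?_, rfl, (melt_c.2 rfl).of_melt, h2⟩))
    have := mem_bits.1 c2
    simp only [mem_ds, ok, tv] at *
    grind

def HR (T : List K) (A : List (Act K)) (t : Tm) : Prop := ∃ d s, Redex (rules T A) d ∧ Repl d .hole t s

def Bad (T : List K) (A : List (Act K)) (B : Act K × Ix K → Prop) : Prop :=
  (∀ p, B p → p.1 ∈ A ∧ p.2 ∈ bits T) ∧ ((∀ p q, B p → B q → p = q) ∨
    ∃ σ, ¬AW A σ ∧ (∀ k, σ k ≠ none → k ∈ T) ∧ ∀ p, B p → tv σ p.2)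

theorem Repl.hole {d u s : Tm} (h : Repl d u t s) : ∃ s, Repl d .hole t s := by
  induction h with
  | root => exact ⟨_, .root⟩
  | arg f a b _ ih => exact ih.elim fun _ h => ⟨_, .arg f a b h⟩

theorem hr_melt (h : T.Nodup) (h1 : Cp (rules T A) .hole t) : HR T A t := by
  obtain ⟨s, ⟨d, u, h2, -, h3⟩, -⟩ := (((h1.red (ll h)).1 rfl _ (.var 0)).cases_head).resolve_left (by
    rintro rfl
    cases h1)
  exact h3.hole.elim fun s h => ⟨d, s, h2, h⟩

theorem Repl.ne_c {d s : Tm} {n : ℕ} (h : Repl d .hole t s) : s ≠ c n := by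
  rintro rfl
  generalize e : c n = v at h
  cases h <;> simp at e

theorem back (h : T.Nodup) (hA : ∀ a ∈ A, a.1 ∈ T) (H : ¬GA (T, A)) (ht : WF (sig T A) False t) :
    ∀ B, Bad T A B → Good T A B t → HR T A t → ¬Cp (rules T A) .hole t ∧
      ((∀ p q, B p → B q → p = q) → ∃ p, B p ∧ ∃ θ, t = (pi T A p).subst θ) := by
  induction ht with
  | var x =>
    rintro _ _ _ ⟨d, s, h1, h2⟩
    cases h2
    cases h1.melt (ll h)
  | hole h => exact h.elim
  | app f ts hf _ ih =>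
  intro B hB hG ⟨d, s, h1, h2⟩
  have nr : ¬Redex (rules T A) (.app f ts) := fun h => by
    rcases hG _ _ h .root with h | ⟨p, -, h⟩
    · generalize e : Tm.hole = w at h
      cases h with
      | melt _ h => simp [← e, melt_iff] at h
      | _ => simp at e
    · simp [pi, cp_app, melt_iff] at h
  have cc : ∀ {n d t s}, Repl d .hole t s → Cp (rules T A) (c n) s → Er (rules T A) s := fun h1 h2 =>
    .melt _ ((cp_c.1 h2).resolve_right h1.ne_c)
  have nm : ∀ {n t}, ¬HR T A t → Cp (rules T A) (c n) t → t = c n := fun h1 h2 =>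
    (cp_c.1 h2).resolve_left fun h2 => h1 (hr_melt h h2)
  have emp : ∀ t ∈ ts, (∀ d s, Redex (rules T A) d → Repl d .hole t s → Er (rules T A) s) → ¬HR T A t :=
    fun t ht h1 h2 => by simpa using (ih t ht (fun _ => False) (by simp [Bad]) (fun d s a b => .inl (h1 d s a b)) h2).2
  obtain rfl | rfl | h3 : f = 0 ∨ f = 1 ∨ ts = [] := by
    rcases f with _ | _ | f <;> simp [sig, List.getElem?_replicate] at hf ⊢
    exact List.length_eq_zero_iff.1 hf.2.symm
  rotate_left 2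
  · subst h3
    exact (nr (by rwa [(repl_c.1 h2).1] at h1)).elim
  · exfalso
    obtain ⟨t1, t2, rfl⟩ := List.length_eq_two.1 (Option.some.inj hf).symm
    have g : ∀ t1 t2, Er (rules T A) (.app 0 [t1, t2]) ∨ (∃ p, B p ∧ Cp (rules T A) (pi T A p) (.app 0 [t1, t2])) →
        Cp (rules T A) .hole (.app 0 [t1, t2]) ∨ Er (rules T A) t1 ∧ Er (rules T A) t2 := by
      simp only [er_app, pi, cp_app]
      grind
    have g2 := ih t2 (by simp) (fun p => ∃ w ∈ ds T A, w.1 = 2 ∧ p = w.2.2.2 ∧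
        Cp (rules T A) (c (7 + (ds T A).idxOf w)) t1) ⟨by simp only [mem_ds]; grind, .inr ⟨_, H, by simp, by
          simp only [mem_ds, ok, tv, mem_bits]; grind⟩⟩ fun d s a1 a2 => by
      rcases g _ _ (hG d _ a1 (repl_two.2 (.inr (.inr ⟨s, a2, rfl⟩)))) with h | h
      · rcases melt_f.1 h with h | ⟨w, b1, b2, b3, b4⟩
        exacts [.inl (cc a2 h), .inr ⟨_, ⟨w, b1, b2, rfl, b3⟩, b4⟩]
      · exact .inl h.2
    have g1 : ¬HR T A t1 := fun h1 => by
      have : ¬Cp (rules T A) .hole t2 := fun h2 => (g2 (hr_melt h h2)).1 h2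
      refine emp t1 (by simp) (fun d s a1 a2 => ?_) h1
      rcases g _ _ (hG d _ a1 (repl_two.2 (.inr (.inl ⟨s, a2, rfl⟩)))) with h | h
      · rcases melt_f.1 h with h | ⟨w, -, -, h, -⟩
        · exact (nr ⟨(.app 0 [.var 0, c 5], c 3), mem_rules.2 ⟨rfl, .inr (.inl rfl)⟩, fun _ => t1, by
            simp [Tm.subst, subst_app, (cp_c.1 h).resolve_left this]⟩).elim
        · exact cc a2 h
      · exact h.1
    rcases repl_two.1 h2 with ⟨rfl, -⟩ | ⟨s, h2, -⟩ | ⟨s, h2, -⟩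
    · exact nr h1
    · exact g1 ⟨d, s, h1, h2⟩
    obtain ⟨_, ⟨w, a1, a2, rfl, a3⟩, θ, a4⟩ := (g2 ⟨d, s, h1, h2⟩).2 (by
      rintro _ _ ⟨v, a1, -, rfl, a2⟩ ⟨w, -, -, rfl, a3⟩
      rw [(List.idxOf_inj a1).1 (by simpa using (nm g1 a2).symm.trans (nm g1 a3))])
    exact nr ⟨(lhs T A w, c 3), mem_rules.2 ⟨rfl, .inr (.inr ⟨w, a1, rfl⟩)⟩, θ, by
      simp [lhs, a2, Tm.subst, subst_app, nm g1 a3, a4]⟩
  obtain ⟨τ, rfl⟩ := ex_map (ixs_nodup h) (Option.some.inj hf)
  replace ih := fun x hx => ih (τ x) (List.mem_map_of_mem hx)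
  replace emp := fun x hx => emp (τ x) (List.mem_map_of_mem hx)
  have dn : ∀ x ∈ ixs T, ∀ d s, Redex (rules T A) d → Repl d .hole (τ x) s → Er (rules T A) s ∨
      ∃ P : Ix K → Tm, ((∃ p, B p ∧ P = piP A p) ∨ ∃ w ∈ ds T A, w.1 ≠ 2 ∧ P = ownP T A w) ∧ Cp (rules T A) (P x) s ∧
        ∀ y ∈ ixs T, Cp (rules T A) (P y) (τ y) := fun x hx d s a1 a2 => by
    have up : ∀ P : Ix K → Tm, (∀ y ∈ ixs T, Cp (rules T A) (P y) (update τ x s y)) → Cp (rules T A) (P x) s ∧
        ∀ y ∈ ixs T, Cp (rules T A) (P y) (τ y) := fun P h1 =>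
      have : Cp (rules T A) (P x) s := by simpa using h1 x hx
      ⟨this, fun y hy => if e : y = x then e ▸ Cp.back a2 (a1.melt (ll h)) this else by simpa [e] using h1 y hy⟩
    have := hG d _ a1 ((repl_map (ixs_nodup h)).2 (.inr ⟨x, hx, s, a2, rfl⟩))
    simp only [er_app, cp_pi, melt_g, List.forall_mem_map] at this
    rcases this with (⟨w, b1, b2, b3⟩ | b) | ⟨p, b, ⟨w, b1, b2, b3⟩ | b3⟩
    exacts [.inr ⟨_, .inr ⟨w, b1, b2, rfl⟩, up _ b3⟩, .inl (by simpa using b x hx),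
      .inr ⟨_, .inr ⟨w, b1, b2, rfl⟩, up _ b3⟩, .inr ⟨_, .inl ⟨p, b, rfl⟩, up _ b3⟩]
  have iA : iA ∈ ixs T := by simp [ixs]
  have iD : iD ∈ ixs T := by simp [ixs]
  have iB : ∀ y ∈ bits T, y ∈ ixs T := fun y h => mem_ixs.2 (by simp [h])
  have iR : ∀ t, iR t ∈ ixs T := fun t => mem_ixs.2 (by simp)
  have hA0 := emp _ iA fun d s a1 a2 => by
    rcases dn _ iA d s a1 a2 with h | ⟨_, ⟨p, -, rfl⟩ | ⟨w, -, -, rfl⟩, h, -⟩
    exacts [h, cc a2 h, cc a2 h]
  have gr : ∀ t, Good T A (fun p => ∃ w ∈ ds T A, w.1 = 4 ∧ w.2.2.1 = t ∧ p = w.2.2.2 ∧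
      ∀ y ∈ ixs T, Cp (rules T A) (ownP T A w y) (τ y)) (τ (MP_ce3b04_lc.iR t)) := fun t d s a1 a2 => by
    rcases dn _ (iR t) d s a1 a2 with h | ⟨_, ⟨p, -, rfl⟩ | ⟨w, b1, -, rfl⟩, h, h'⟩
    · exact .inl h
    · exact .inl (cc a2 h)
    simp only [ownP, Nat.reduceEqDiff, if_true, if_false] at h
    split_ifs at h with e4 <;> try exact .inl (cc a2 h)
    exact .inr ⟨_, ⟨w, b1, e4.1, e4.2.symm, rfl, h'⟩, h⟩
  by_cases hp : ∃ p, B p ∧ ∀ y ∈ ixs T, Cp (rules T A) (piP A p y) (τ y)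
  · obtain ⟨p, a1, a2⟩ := hp
    have a3 := nm hA0 (a2 _ iA)
    have a4 : ∀ y ∈ bits T, ¬B (p.1, y) → τ y = c 3 := fun y hy e => by
      have := mem_bits.1 hy
      refine nm (emp _ (iB y hy) fun d s b1 b2 => ?_) (by
        have := a2 y (iB y hy)
        rwa [show piP A p y = c 3 by simp only [piP]; grind] at this)
      rcases dn _ (iB y hy) d s b1 b2 with h | ⟨_, ⟨q, b3, rfl⟩ | ⟨w, -, -, rfl⟩, h, h'⟩
      · exact h
      · have : q.1 = p.1 := (List.idxOf_inj (hB.1 q b3).1).1 (by simpa [piP, a3] using (nm hA0 (h' _ iA)).symm)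
        exact cc b2 (by rwa [show piP A q y = c 3 by simp only [piP]; grind] at h)
      · simp only [ownP] at h
        split_ifs at h <;> first | exact cc b2 h | omega
    have a5 : ∀ w ∈ ds T A, (∀ y ∈ ixs T, Cp (rules T A) (ownP T A w y) (τ y)) →
        w.2.1 = p.1 ∧ ∀ y ∈ bits T, ownP T A w y = c 4 → B (p.1, y) := fun w hw h' =>
      ⟨(List.idxOf_inj (mem_ds.1 hw).1).1 (by simpa [ownP, piP, a3] using (nm hA0 (h' _ iA)).symm),
        fun y hy e => by_contra fun e' => by simpa [e, a4 y hy e', cp_c, melt_c] using h' y (iB y hy)⟩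
    have a6 : ¬Cp (rules T A) .hole (.app 1 ((ixs T).map τ)) := fun hm => by
      obtain ⟨w, b1, b2, b3⟩ := melt_g.1 hm
      obtain ⟨b4, b5⟩ := a5 w b1 b3
      rcases hB.2 with hs | ⟨σ, c1, c2, c3⟩
      · obtain ⟨y, c1, c2, c3⟩ := two_k hA b1 p.2
        exact c2 (congrArg Prod.snd (hs _ _ (b5 y c1 c3) a1))
      have c4 : ∀ y ∈ bits T, grd p.1 y → tv σ y := fun y hy e => c3 _ (b5 y hy (by
        have := mem_bits.1 hy
        simp only [ownP, b4]; grind))
      have c5 := hA _ (hB.1 p a1).1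
      obtain ⟨t, c6, c7⟩ : ∃ t ∈ p.1.2.2.2, ¬AW A (update σ p.1.1 (some t)) := by
        by_contra hc
        refine c1 (.act p.1 (hB.1 p a1).1 (by
          simpa [tv] using c4 (2, p.1.1, p.1.2.1) (by simp [mem_bits, c5]) (by simp [grd]))
          (fun x hx e e' => ?_) (by grind))
        simpa [tv, e'] using c4 (3, x) (by simp [mem_bits, c2 x.1, e']) (by simp [grd, hx, e])
      rcases cp_c.1 (a2 _ (iR t)) with c8 | c8
      · refine (ih _ (iR t) _ ⟨by simp only [mem_ds]; grind, .inr ⟨_, c7, by simp only [update_apply]; grind, ?_⟩⟩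
          (gr t) (hr_melt h c8)).1 c8
        rintro _ ⟨v, d1, d2, rfl, rfl, d3⟩
        obtain ⟨d4, d5⟩ := a5 v d1 d3
        obtain ⟨-, -, d6, d7⟩ := mem_ds.1 d1
        have := mem_bits.1 d6
        have := fun e => c3 _ (d5 _ d6 e)
        simp only [ok, tv, ownP, update_apply] at *
        grind
      · have := b3 _ (iR t)
        rw [c8] at this
        simp only [ownP, b4, c6, Nat.reduceEqDiff, if_true, if_false] at this
        split_ifs at this <;> simp [pi, cp_app, melt_c] at this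
    refine ⟨a6, fun hs => ⟨p, a1, fun n => if n = 0 then τ MP_ce3b04_lc.iD else τ p.2, ?_⟩⟩
    simp only [pi, Tm.subst, subst_app, List.map_map, app_inj, true_and, List.map_inj_left, comp]
    intro y hy
    rcases mem_ixs.1 hy with rfl | rfl | e | e
    · simp [a3, piP, Tm.subst, subst_app]
    · simp [piP, Tm.subst, subst_app]
    · have := mem_bits.1 e
      have := a4 y e
      have := hs _ (p.1, y) a1
      simp only [piP]
      split_ifs <;> simp only [Tm.subst, subst_app, List.map_nil] <;> grind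
    · rw [e, nm (emp _ (iR _) fun d s b1 b2 => ?_) (a2 _ (iR _))]
      · simp [piP, Tm.subst, subst_app]
      rcases gr _ d s b1 b2 with h | ⟨_, ⟨w, c1, c2, -, -, c3⟩, -⟩
      exacts [h, (a6 (melt_g.2 ⟨w, c1, by omega, c3⟩)).elim]
  exfalso
  have a1 : ∀ y ∈ ixs T, y.1 ≠ 4 → ¬HR T A (τ y) := fun y hy e => emp y hy fun d s b1 b2 => by
    rcases dn _ hy d s b1 b2 with h | ⟨_, ⟨q, b3, rfl⟩ | ⟨w, -, -, rfl⟩, h, h'⟩
    · exact h
    · exact (hp ⟨q, b3, h'⟩).elim
    · simp only [ownP] at h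
      split_ifs at h <;> exact cc b2 h
  have a2 := fun t => ih _ (iR t) _ ⟨by simp only [mem_ds]; grind, .inl (by
    rintro _ _ ⟨v, b1, -, -, rfl, b2⟩ ⟨w, -, -, -, rfl, b3⟩
    rw [(List.idxOf_inj b1).1 (by
      simpa using (nm (a1 _ iD (by simp)) (b2 _ iD)).symm.trans (nm (a1 _ iD (by simp)) (b3 _ iD)))])⟩ (gr t)
  rcases (repl_map (ixs_nodup h)).1 h2 with ⟨rfl, -⟩ | ⟨x, hx, s, h2, -⟩
  · exact nr h1
  have e : x = MP_ce3b04_lc.iR x.2.2 := by
    have := mt (a1 x hx) (not_not.2 ⟨d, s, h1, h2⟩)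
    simp only [mem_ixs, mem_bits] at hx
    grind
  obtain ⟨_, ⟨w, b1, b2, b3, rfl, b4⟩, θ, b5⟩ := (a2 x.2.2 (e ▸ ⟨d, s, h1, h2⟩)).2 (by
    rintro _ _ ⟨v, b1, -, -, rfl, b2⟩ ⟨w, -, -, -, rfl, b3⟩
    rw [(List.idxOf_inj b1).1 (by
      simpa using (nm (a1 _ iD (by simp)) (b2 _ iD)).symm.trans (nm (a1 _ iD (by simp)) (b3 _ iD)))])
  refine nr ⟨(lhs T A w, c 3), mem_rules.2 ⟨rfl, .inr (.inr ⟨w, b1, rfl⟩)⟩, θ, ?_⟩
  simp only [lhs, b2, Nat.reduceEqDiff, if_false, Tm.subst, subst_app, List.map_map, app_inj, true_and, List.map_inj_left, comp]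
  intro y hy
  have b6 := b4 y hy
  have b7 : ∀ n, Cp (rules T A) (c n) (τ y) → τ y = (c n).subst θ := fun n h' => by
    rw [subst_app]
    refine (cp_c.1 h').resolve_left fun h' => ?_
    by_cases e : y.1 = 4
    · rw [show y = MP_ce3b04_lc.iR y.2.2 by simp only [mem_ixs, mem_bits] at hy; grind] at h'
      exact (a2 _ (hr_melt h h')).1 h'
    · exact a1 y hy e (hr_melt h h')
  simp only [ownP] at b6 ⊢
  split_ifs at b6 ⊢ <;> try exact b7 _ b6
  rw [← b5, show y = MP_ce3b04_lc.iR x.2.2 by simp only [mem_ixs, mem_bits] at hy; grind]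

theorem main (h : T.Nodup) (hA : ∀ a ∈ A, a.1 ∈ T) : ¬GA (T, A) ↔ SS (sig T A) (rules T A) := by
  refine ⟨fun H t ht h1 => by_contra fun h2 => ?_, fun h1 h2 => not_ss h hA h2 h1⟩
  simp only [NF, Sub, needed_iff (ll h)] at h1 h2
  simpa using (back h hA H ht (fun _ => False) (by simp [Bad]) (fun d s a b => .inl (by grind))
    (by unfold HR; grind)).2

theorem trs_eq : ∀ ts : List Tm, listTr (ts.map Tm.tr) = listTr ts
  | [] => rfl
  | _ :: ts => congrArg _ (trs_eq ts)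

@[fun_prop] theorem pt_app {α : Type} [Enc α] {f : α → ℕ} {l : α → List Tm} (hf : PT f) (hl : PT l) :
    PT fun a => Tm.app (f a) (l a) :=
  ((PT.const true).pair (hf.pair hl)).cast fun _ => congrArg (fun x => Tr.node _ (.node _ x))
    ((congrArg _ (List.ofFn_getElem_eq_map ..)).trans (trs_eq _))

variable [Enc K]

set_option synthInstance.maxSize 4000

theorem red_pt : PT fun a : List K × List (Act K) => (sig a.1 a.2, rules a.1 a.2) := by
  classical
  have h1 : PT (bits (K := K)) := by unfold bits; fun_prop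
  have h2 : PT (ixs (K := K)) := by unfold ixs; fun_prop
  have h3 : PT fun a : List (Act K) × (Act K × Ix K) × Ix K => piP a.1 a.2.1 a.2.2 := by unfold piP; fun_prop
  have h4 : PT fun a : List K × List (Act K) × Act K × Ix K => pi a.1 a.2.1 a.2.2 := by unfold pi; fun_prop
  have h5 : PT fun w : Desc K => decide (ok w) := by unfold ok; fun_prop
  have h6 : PT fun a : List K × List (Act K) => ds a.1 a.2 := by unfold ds; fun_prop
  have h7 : PT fun a : Act K × Ix K => decide (grd a.1 a.2) := by unfold grd; fun_prop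
  have h8 : PT fun a : List K × List (Act K) × Desc K × Ix K => ownP a.1 a.2.1 a.2.2.1 a.2.2.2 := by
    unfold ownP; fun_prop
  have h9 : PT fun a : List K × List (Act K) × Desc K => lhs a.1 a.2.1 a.2.2 := by unfold lhs; fun_prop
  unfold sig rules; fun_prop

end Pool.Agent.H.MP_ce3b04_lc
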