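import Pool.Agent.Lib.lead.CXDefs

/-! Term rewriting systems and strong sequentiality. -/

set_option autoImplicit false

namespace Pool.Agent.H.MP_ce3b04_lc

open Pool.Agent.Lib.CX

/-- terms; `hole` is the fresh constant -/
inductive Tm
  | var (x : ℕ)
  | hole
  | ap (f n : ℕ) (ts : Fin n → Tm)

/-- the symbol `f` applied to a list of arguments -/
def Tm.app (f : ℕ) (l : List Tm) : Tm := .ap f l.length l.get

def Tm.tr : Tm → Tr
  | .var x => .node (.leaf false) (Enc.tr x)
  | .hole => .leaf false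
  | .ap f _ ts => .node (.leaf true) (.node (Enc.tr f) (listTr (List.ofFn fun i => (ts i).tr)))

theorem Tm.tr_inj (a : Tm) : ∀ b : Tm, a.tr = b.tr → a = b := by
  induction a with
  | ap f n ts ih =>
    rintro (_ | _ | ⟨g, m, us⟩) h <;> simp only [Tm.tr, Tr.node.injEq, Tr.leaf.injEq, reduceCtorEq, false_and] at h
    have h1 := listTr_inj h.2.2
    obtain rfl : n = m := by simpa using congrArg List.length h1
    rw [Enc.inj h.2.1, funext fun i => ih i _ (congrFun (List.ofFn_injective h1) i)]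
  | _ => rintro (_ | _ | _) h <;> simp_all [Tm.tr, Enc.inj.eq_iff]

instance : Enc Tm := ⟨Tm.tr, Tm.tr_inj⟩

def Tm.subst (σ : ℕ → Tm) : Tm → Tm
  | .var x => σ x
  | .hole => .hole
  | .ap f n ts => .ap f n fun i => (ts i).subst σ

/-- the list of variable occurrences -/
def Tm.vars : Tm → List ℕ
  | .var x => [x]
  | .hole => []
  | .ap _ _ ts => (List.ofFn fun i => (ts i).vars).flatten

/-- terms over the signature `F` (symbol `f` has arity `F[f]`); the hole is allowed if `h` holds -/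
inductive WF (F : List ℕ) (h : Prop) : Tm → Prop
  | var (x) : WF F h (.var x)
  | hole : h → WF F h .hole
  | app (f ts) : F[f]? = some ts.length → (∀ t ∈ ts, WF F h t) → WF F h (.app f ts)

/-- `Repl d u C[d] C[u]` -/
inductive Repl (d u : Tm) : Tm → Tm → Prop
  | root : Repl d u d u
  | arg (f a b) {t s} : Repl d u t s → Repl d u (.app f (a ++ t :: b)) (.app f (a ++ s :: b))

/-- `d` is a subterm of `t` -/
def Sub (d t : Tm) : Prop := ∃ c, Repl d .hole t c

def Redex (R : List (Tm × Tm)) (t : Tm) : Prop := ∃ r ∈ R, ∃ σ, t = r.1.subst σ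

def NF (R : List (Tm × Tm)) (t : Tm) : Prop := ∀ d, Sub d t → ¬Redex R d

/-- arbitrary reduction -/
def Step (F : List ℕ) (R : List (Tm × Tm)) (t s : Tm) : Prop := ∃ d u, Redex R d ∧ WF F True u ∧ Repl d u t s

def Needed (F : List ℕ) (R : List (Tm × Tm)) (c : Tm) : Prop :=
  ∀ s, Relation.ReflTransGen (Step F R) c s → NF R s → Sub .hole s

/-- strong sequentiality -/
def SS (F : List ℕ) (R : List (Tm × Tm)) : Prop :=
  ∀ t, WF F False t → ¬NF R t → ∃ d c, Redex R d ∧ Repl d .hole t c ∧ Needed F R c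

def Unif (a b : Tm) : Prop := ∃ σ τ, a.subst σ = b.subst τ

/-- `R` is an orthogonal rewriting system over `F` -/
def Orth (F : List ℕ) (R : List (Tm × Tm)) : Prop :=
  (∀ r ∈ R, WF F False r.1 ∧ WF F False r.2 ∧ (∀ x, r.1 ≠ .var x) ∧ r.2.vars ⊆ r.1.vars ∧ r.1.vars.Nodup) ∧
    R.Pairwise (fun r r' => ¬Unif r.1 r'.1) ∧
    ∀ r ∈ R, ∀ r' ∈ R, ∀ f ts, r.1 = .app f ts → ∀ t ∈ ts, ∀ d, Sub d t → (∀ x, d ≠ .var x) → ¬Unif d r'.1

end Pool.Agent.H.MP_ce3b04_lc
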